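import Mathlib

set_option autoImplicit false

/-!
The notion of a Calkin algebra.
-/

namespace Pool.Agent.W8d7136s

/-- the space `L(X)/K(X)` with the quotient norm -/
abbrev Calkin (X : Type) [NormedAddCommGroup X] [NormedSpace ℂ X] : Type :=
  (X →L[ℂ] X) ⧸ compactOperator (RingHom.id ℂ) X X

/-- the class of an operator in `L(X)/K(X)` -/
def cls {X : Type} [NormedAddCommGroup X] [NormedSpace ℂ X] (T : X →L[ℂ] X) : Calkin X :=
  Submodule.Quotient.mk T

/-- `B` is isomorphic, as a unital Banach algebra, to the Calkin algebra of `X` -/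
def IsCalkinAlgebraOf (B : Type) [NormedRing B] [NormedAlgebra ℂ B] (X : Type)
    [NormedAddCommGroup X] [NormedSpace ℂ X] : Prop :=
  ∃ Φ : Calkin X ≃L[ℂ] B, Φ (cls 1) = 1 ∧
    ∀ S T : X →L[ℂ] X, Φ (cls (S * T)) = Φ (cls S) * Φ (cls T)

/-- `B` is isometrically isomorphic, as a unital Banach algebra, to the Calkin algebra of `X` -/
def IsIsometricCalkinAlgebraOf (B : Type) [NormedRing B] [NormedAlgebra ℂ B] (X : Type)
    [NormedAddCommGroup X] [NormedSpace ℂ X] : Prop :=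
  ∃ Φ : Calkin X ≃ₗᵢ[ℂ] B, Φ (cls 1) = 1 ∧
    ∀ S T : X →L[ℂ] X, Φ (cls (S * T)) = Φ (cls S) * Φ (cls T)

end Pool.Agent.W8d7136s
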